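import Pool.Agent.LSG.StmtsA

/-!
# Squad LSG, row NPC (helper86): a discrete sequence of translates
-/

set_option autoImplicit false

open MeasureTheory Set Topology
open scoped BigOperators Pointwise

namespace Pool.Agent.LSG.H86

/-- **Row NPC.** -/
theorem npc : NpcStmt := by
  intro H _ _ _ _ hH
  obtain ⟨U, hU, hF⟩ := hH
  obtain ⟨V0, hV0, hsplit⟩ := exists_nhds_one_split4 hU
  set W : Set H := V0 ∩ V0⁻¹ with hW
  have hWn : W ∈ nhds (1 : H) := Filter.inter_mem hV0 (inv_mem_nhds_one H hV0)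
  obtain ⟨V, hVn, hVc, hVW⟩ := exists_mem_nhds_isClosed_subset hWn
  have hex : ∃ f : ℕ → H, ∀ m n : ℕ, m < n → f n ∉ f m • U := by
    obtain ⟨f, hf1, hf2⟩ := exists_seq_of_forall_finset_exists (fun _ : H => True)
      (fun x y => y ∉ x • U) (by
        intro s _
        have h1 := hF s
        obtain ⟨y, hy⟩ := (Set.ne_univ_iff_exists_notMem _).1 h1
        refine ⟨y, trivial, ?_⟩
        intro x hx hxy
        exact hy (Set.mem_biUnion hx hxy))
    exact ⟨f, hf2⟩
  obtain ⟨g, hg⟩ := hex
  -- the key fact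
  have key : ∀ (x : H) (i j : ℕ), i < j → ∀ w ∈ W, ∀ w' ∈ W, ∀ v ∈ V, ∀ v' ∈ V,
      x * w = g i * v → x * w' = g j * v' → False := by
    intro x i j hij w hw w' hw' v hv v' hv' h1 h2
    apply hg i j hij
    rw [Set.mem_smul_set]
    refine ⟨v * w⁻¹ * w' * v'⁻¹, ?_, ?_⟩
    · apply hsplit
      · exact (hVW hv).1
      · exact hw.2
      · exact hw'.1
      · exact (hVW hv').2
    · have h3 : g i = x * w * v⁻¹ := by
        rw [h1]
        group
      have h4 : g j = x * w' * v'⁻¹ := by
        rw [h2]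
        group
      rw [smul_eq_mul, h3, h4]
      group
  have hone : (1 : H) ∈ W := mem_of_mem_nhds hWn
  refine ⟨V, g, hVn, hVc, ?_, ?_⟩
  · have hlt : ∀ i j, i < j → Disjoint (g i • V) (g j • V) := by
      intro i j hij
      rw [Set.disjoint_left]
      rintro y ⟨v, hv, h1⟩ ⟨v', hv', h2⟩
      refine key y i j hij 1 hone 1 hone v hv v' hv' ?_ ?_
      · rw [mul_one]
        exact h1.symm
      · rw [mul_one]
        exact h2.symm
    intro i j hij
    rcases lt_or_gt_of_ne hij with h | h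
    · exact hlt i j h
    · exact (hlt j i h).symm
  · intro x
    refine ⟨x • W, ?_, ?_⟩
    · have h1 : x • W ∈ nhds (x • (1 : H)) := smul_mem_nhds_smul x hWn
      rwa [smul_eq_mul, mul_one] at h1
    · apply Set.Subsingleton.finite
      have hlt : ∀ i j, i < j → (g i • V ∩ x • W).Nonempty → (g j • V ∩ x • W).Nonempty →
          False := by
        rintro i j hij ⟨y, ⟨v, hv, h1⟩, ⟨w, hw, h2⟩⟩ ⟨y', ⟨v', hv', h1'⟩, ⟨w', hw', h2'⟩⟩
        exact key x i j hij w hw w' hw' v hv v' hv' (h2.trans h1.symm) (h2'.trans h1'.symm)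
      intro i hi j hj
      rcases lt_trichotomy i j with h | h | h
      · exact (hlt i j h hi hj).elim
      · exact h
      · exact (hlt j i h hj hi).elim

end Pool.Agent.LSG.H86
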